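import Mathlib
import Pool.Agent.H705R2.Weyl

/-!
# The reals whose orbit under the multiplication by `lam > 1` avoids an open set mod 1
-/

set_option autoImplicit false

open MeasureTheory Filter Topology Set

namespace Pool.Agent.TH959.AL

open Pool.Agent.H705R2 (Circ)

/-- the reals whose orbit avoids `V` -/
def av (lam : ℝ) (V : Set Circ) : Set ℝ := {a : ℝ | ∀ j : ℕ, ((a * lam ^ j : ℝ) : Circ) ∉ V}

lemma exists_ball {V : Set Circ} (hV : IsOpen V) (hVn : V.Nonempty) :
    ∃ c η : ℝ, 0 < η ∧ η ≤ 1 ∧ ∀ y : ℝ, |y - c| ≤ η → (y : Circ) ∈ V := by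
  obtain ⟨v, hv⟩ := hVn
  obtain ⟨c, rfl⟩ := QuotientAddGroup.mk_surjective v
  have ho : IsOpen ((fun x : ℝ => (x : Circ)) ⁻¹' V) :=
    hV.preimage (AddCircle.continuous_mk' 1)
  obtain ⟨e, he, hb⟩ := Metric.isOpen_iff.1 ho c hv
  refine ⟨c, min (e / 2) 1, lt_min (by linarith) one_pos, min_le_right _ _, fun y hy => ?_⟩
  apply hb
  rw [Metric.mem_ball, Real.dist_eq]
  have := min_le_left (e / 2) 1
  linarith

lemma volume_av {lam : ℝ} (hl : 1 < lam) {V : Set Circ} (hV : IsOpen V) (hVn : V.Nonempty) :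
    volume (av lam V) = 0 := by
  obtain ⟨c, η, hη, hη1, hcV⟩ := exists_ball hV hVn
  have hl0 : 0 < lam := by linarith
  have h := Besicovitch.ae_tendsto_measure_inter_div (volume : Measure ℝ) (av lam V)
  have hfalse : ∀ x : ℝ, ¬ Tendsto (fun r => volume (av lam V ∩ Metric.closedBall x r) /
      volume (Metric.closedBall x r)) (𝓝[>] 0) (𝓝 1) := by
    intro x hx
    have hr : Tendsto (fun j : ℕ => 2 / lam ^ j) atTop (𝓝[>] 0) := by
      rw [tendsto_nhdsWithin_iff]
      refine ⟨?_, Filter.Eventually.of_forall fun j => ?_⟩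
      · have h1 := (tendsto_pow_atTop_nhds_zero_of_lt_one (r := lam⁻¹) (by positivity)
          (inv_lt_one_of_one_lt₀ hl)).const_mul 2
        rw [mul_zero] at h1
        refine h1.congr fun j => ?_
        rw [inv_pow, div_eq_mul_inv]
      · show 0 < 2 / lam ^ j
        positivity
    have h2 := hx.comp hr
    have h3 : ∀ j : ℕ, ((fun r => volume (av lam V ∩ Metric.closedBall x r) /
        volume (Metric.closedBall x r)) ∘ (fun j : ℕ => 2 / lam ^ j)) j ≤
        ENNReal.ofReal (1 - η / 2) := by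
      intro j
      have hlj : 0 < lam ^ j := by positivity
      simp only [Function.comp_apply]
      set N : ℤ := round (x * lam ^ j - c) with hN
      set z : ℝ := (c + N) / lam ^ j with hz
      have hNr : |x * lam ^ j - c - N| ≤ 1 / 2 := abs_sub_round _
      have hsub1 : Metric.closedBall z (η / lam ^ j) ⊆ Metric.closedBall x (2 / lam ^ j) := by
        intro y hy
        rw [Metric.mem_closedBall, Real.dist_eq] at *
        rw [le_div_iff₀ hlj] at *
        have e1 : |y - z| * lam ^ j = |y * lam ^ j - (c + N)| := by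
          rw [← abs_of_pos hlj, ← abs_mul, abs_of_pos hlj, hz]
          congr 1
          field_simp
        have e2 : |y - x| * lam ^ j = |y * lam ^ j - x * lam ^ j| := by
          rw [← abs_of_pos hlj, ← abs_mul, abs_of_pos hlj]
          congr 1
          ring
        rw [e1] at hy
        rw [e2]
        have e3 : y * lam ^ j - x * lam ^ j = (y * lam ^ j - (c + N)) -
            (x * lam ^ j - c - N) := by ring
        rw [e3]
        refine (abs_sub _ _).trans ?_
        linarith
      have hsub2 : av lam V ∩ Metric.closedBall x (2 / lam ^ j) ⊆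
          Metric.closedBall x (2 / lam ^ j) \ Metric.closedBall z (η / lam ^ j) := by
        rintro y ⟨hy1, hy2⟩
        refine ⟨hy2, fun hy3 => ?_⟩
        rw [Metric.mem_closedBall, Real.dist_eq, le_div_iff₀ hlj] at hy3
        have e1 : |y - z| * lam ^ j = |(y * lam ^ j - N) - c| := by
          rw [← abs_of_pos hlj, ← abs_mul, abs_of_pos hlj, hz]
          congr 1
          field_simp
          ring
        rw [e1] at hy3
        apply hy1 j
        have h5 := hcV _ hy3
        have h6 : ((y * lam ^ j - N : ℝ) : Circ) = ((y * lam ^ j : ℝ) : Circ) := by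
          rw [AddCircle.coe_sub]
          have h7 : (((N : ℤ) : ℝ) : Circ) = 0 := by
            rw [AddCircle.coe_eq_zero_iff]
            exact ⟨N, by simp⟩
          rw [h7, sub_zero]
        rwa [h6] at h5
      have hvol : volume (av lam V ∩ Metric.closedBall x (2 / lam ^ j)) ≤
          ENNReal.ofReal (2 * (2 / lam ^ j) - 2 * (η / lam ^ j)) := by
        refine (measure_mono hsub2).trans ?_
        rw [measure_sdiff hsub1 Metric.isClosed_closedBall.measurableSet.nullMeasurableSet
          (by rw [Real.volume_closedBall]; exact ENNReal.ofReal_ne_top), Real.volume_closedBall,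
          Real.volume_closedBall, ENNReal.ofReal_sub _ (by positivity)]
      rw [Real.volume_closedBall]
      calc volume (av lam V ∩ Metric.closedBall x (2 / lam ^ j)) /
            ENNReal.ofReal (2 * (2 / lam ^ j))
          ≤ ENNReal.ofReal (2 * (2 / lam ^ j) - 2 * (η / lam ^ j)) /
            ENNReal.ofReal (2 * (2 / lam ^ j)) := by gcongr
        _ = ENNReal.ofReal (1 - η / 2) := by
            rw [← ENNReal.ofReal_div_of_pos (by positivity)]
            congr 1
            field_simp
    have h4 := le_of_tendsto' h2 h3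
    rw [ENNReal.one_le_ofReal] at h4
    linarith
  have h5 : ∀ᵐ x ∂(volume.restrict (av lam V)), False := h.mono fun x hx => hfalse x hx
  rw [Filter.eventually_false_iff_eq_bot, ae_eq_bot, Measure.restrict_eq_zero] at h5
  exact h5

/-- the exceptional set in the logarithmic coordinate -/
def Ns (lam : ℝ) (R : ℝ) (V : Set Circ) : Set ℝ :=
  {s | ∀ j : ℕ, ((R * lam ^ (s + (j : ℝ)) : ℝ) : Circ) ∉ V}

lemma volume_Ns {lam : ℝ} (hl : 1 < lam) {R : ℝ} (hR : R ≠ 0) {V : Set Circ} (hV : IsOpen V)
    (hVn : V.Nonempty) : volume (Ns lam R V) = 0 := by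
  have hl0 : 0 < lam := by linarith
  have hsub : Ns lam R V ⊆ (fun y : ℝ => Real.logb lam (y / R)) '' (av lam V ∩ {y | 0 < y / R}) := by
    intro s hs
    refine ⟨R * lam ^ s, ⟨?_, ?_⟩, ?_⟩
    · intro j
      have h1 := hs j
      have h2 : R * lam ^ s * lam ^ j = R * lam ^ (s + (j : ℝ)) := by
        rw [Real.rpow_add hl0, Real.rpow_natCast]
        ring
      rw [h2]
      exact h1
    · simp only [mem_ofPred_eq]
      rw [mul_div_assoc, mul_comm, div_mul_cancel₀ _ hR]
      positivity
    · simp only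
      rw [mul_div_assoc, mul_comm, div_mul_cancel₀ _ hR]
      exact Real.logb_rpow hl0 hl.ne'
  refine measure_mono_null hsub ?_
  refine MeasureTheory.addHaar_image_eq_zero_of_differentiableOn_of_addHaar_eq_zero volume ?_
    (measure_mono_null inter_subset_left (volume_av hl hV hVn))
  intro y hy
  have hy' : 0 < y / R := hy.2
  refine DifferentiableAt.differentiableWithinAt ?_
  unfold Real.logb
  refine DifferentiableAt.div_const ?_ _
  refine DifferentiableAt.log ?_ hy'.ne'
  exact differentiableAt_id.div_const _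

/-- finitely many times -/
def Zs (lam : ℝ) (R : ℝ) (V : Set Circ) (J : ℕ) : Set ℝ :=
  {s | 0 ≤ s ∧ s ≤ 1 ∧ ∀ j : ℕ, j ≤ J → ((R * lam ^ (s + (j : ℝ)) : ℝ) : Circ) ∉ V}

lemma isClosed_Zs {lam : ℝ} (hl : 1 < lam) (R : ℝ) {V : Set Circ} (hV : IsOpen V) (J : ℕ) :
    IsClosed (Zs lam R V J) := by
  have hl0 : lam ≠ 0 := by positivity
  have h1 : Zs lam R V J = Icc 0 1 ∩ ⋂ j : ℕ, ⋂ _ : j ≤ J,
      {s : ℝ | ((R * lam ^ (s + (j : ℝ)) : ℝ) : Circ) ∉ V} := by
    ext s
    simp only [Zs, mem_ofPred_eq, mem_inter_iff, mem_Icc, mem_iInter, and_assoc]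
  rw [h1]
  refine isClosed_Icc.inter (isClosed_iInter fun j => isClosed_iInter fun _ => ?_)
  refine hV.isClosed_compl.preimage ?_
  refine (AddCircle.continuous_mk' 1).comp ?_
  refine continuous_const.mul ?_
  exact (Real.continuous_const_rpow hl0).comp (by fun_prop)

lemma volume_Zs {lam : ℝ} (hl : 1 < lam) {R : ℝ} (hR : R ≠ 0) {V : Set Circ} (hV : IsOpen V)
    (hVn : V.Nonempty) {δ : ℝ} (hδ : 0 < δ) :
    ∃ J : ℕ, volume (Zs lam R V J) < ENNReal.ofReal δ := by
  have hanti : Antitone (Zs lam R V) := by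
    intro J J' hJ s hs
    exact ⟨hs.1, hs.2.1, fun j hj => hs.2.2 j (hj.trans hJ)⟩
  have hfin : volume (Zs lam R V 0) ≠ ⊤ := by
    refine ne_top_of_le_ne_top (b := volume (Icc (0 : ℝ) 1)) ?_ (measure_mono fun s hs => ?_)
    · rw [Real.volume_Icc]
      exact ENNReal.ofReal_ne_top
    · exact ⟨hs.1, hs.2.1⟩
  have ht := tendsto_measure_iInter_atTop (μ := (volume : Measure ℝ))
    (fun J => (isClosed_Zs hl R hV J).measurableSet.nullMeasurableSet) hanti ⟨0, hfin⟩
  have hz : volume (⋂ J, Zs lam R V J) = 0 := by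
    refine measure_mono_null ?_ (volume_Ns hl hR hV hVn)
    intro s hs j
    rw [mem_iInter] at hs
    exact (hs j).2.2 j le_rfl
  rw [hz] at ht
  obtain ⟨J, hJ⟩ := (ht.eventually_lt_const (ENNReal.ofReal_pos.2 hδ)).exists
  exact ⟨J, hJ⟩

/-- the image in the circle -/
lemma volume_image {Z : Set ℝ} (hZ : IsClosed Z) (h01 : Z ⊆ Icc 0 1) :
    IsClosed ((fun x : ℝ => (x : Circ)) '' Z) ∧
      volume ((fun x : ℝ => (x : Circ)) '' Z) ≤ volume Z := by
  have hcpt : IsCompact Z := isCompact_Icc.of_isClosed_subset hZ h01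
  have hcl : IsClosed ((fun x : ℝ => (x : Circ)) '' Z) :=
    (hcpt.image (AddCircle.continuous_mk' 1)).isClosed
  refine ⟨hcl, ?_⟩
  have hp := UnitAddCircle.measurePreserving_mk (0 : ℝ)
  have h1 := hp.measure_preimage hcl.measurableSet.nullMeasurableSet
  rw [Measure.restrict_apply (hp.measurable hcl.measurableSet)] at h1
  have h2 : ((fun x : ℝ => (x : Circ)) ⁻¹' ((fun x : ℝ => (x : Circ)) '' Z)) ∩ Ioc (0 : ℝ) (0 + 1)
      ⊆ Z ∪ {1} := by
    rintro s ⟨⟨t, ht, hts⟩, hs0, hs1⟩
    simp only at hts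
    have h0 : ((s - t : ℝ) : Circ) = 0 := by
      rw [AddCircle.coe_sub, hts, sub_self]
    rw [AddCircle.coe_eq_zero_iff] at h0
    obtain ⟨n, hn⟩ := h0
    simp only [zsmul_eq_mul, mul_one] at hn
    have ht01 := h01 ht
    have hn1 : (n : ℝ) ≤ 1 := by rw [hn]; linarith [ht01.1]
    have hn2 : (-1 : ℝ) < n := by rw [hn]; linarith [ht01.2]
    have hn1' : n ≤ 1 := by exact_mod_cast hn1
    have hn2' : -1 < n := by exact_mod_cast hn2
    have hn3 : n = 0 ∨ n = 1 := by omega
    rcases hn3 with rfl | rfl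
    · left
      have : s = t := by
        push_cast at hn
        linarith
      rw [this]
      exact ht
    · right
      rw [mem_singleton_iff]
      push_cast at hn
      linarith [ht01.1]
  calc volume ((fun x : ℝ => (x : Circ)) '' Z) = _ := h1.symm
    _ ≤ volume (Z ∪ {1}) := measure_mono h2
    _ ≤ volume Z + volume {(1 : ℝ)} := measure_union_le _ _
    _ = volume Z := by rw [Real.volume_singleton, add_zero]

end Pool.Agent.TH959.AL
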