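import Mathlib
import Pool.Agent.H705R2.Weyl

/-!
# Uniform equidistribution of an irrational rotation
-/

set_option autoImplicit false

open MeasureTheory Filter Topology Set

namespace Pool.Agent.TH959.AL

open Pool.Agent.H705R2

/-- uniform convergence of the averages -/
def Un (a : Circ) (f : C(Circ, ℂ)) : Prop :=
  ∀ ε : ℝ, 0 < ε → ∃ N : ℕ, ∀ M : ℕ, N ≤ M → ∀ s : Circ, ‖avg a s f M - ∫ x : Circ, f x‖ < ε

lemma un_fourier {a : Circ} (ha : addOrderOf a = 0) (n : ℤ) : Un a (fourier n) := by
  intro ε hε
  by_cases hn : n = 0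
  · subst hn
    refine ⟨1, fun M hM s => ?_⟩
    have hint : ∫ x : Circ, (fourier 0 x : ℂ) = 1 := by
      simp [fourier_zero, Measure.real]
    have h1 : avg a s (fourier 0 : C(Circ, ℂ)) M = 1 := by
      unfold avg
      simp only [fourier_zero, Finset.sum_const, Finset.card_range, nsmul_eq_mul, mul_one]
      have : (M : ℂ) ≠ 0 := by exact_mod_cast (by omega : M ≠ 0)
      field_simp
    rw [h1, hint, sub_self, norm_zero]
    exact hε
  · have hz := exists_fourier_ne_one ha hn
    set z : ℂ := fourier n a with hzdef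
    have hnorm : ‖z‖ = 1 := by
      rw [hzdef, fourier_apply]; exact Circle.norm_coe _
    have hpos : 0 < ‖z - 1‖ := norm_pos_iff.2 (sub_ne_zero.2 hz)
    have hterm : ∀ (s : Circ) (m : ℕ), (fourier n (s + m • a) : ℂ) = fourier n s * z ^ m := by
      intro s m
      rw [hzdef]
      simp only [fourier_apply]
      rw [smul_add, AddCircle.toCircle_add]
      have : n • m • a = m • n • a := by rw [smul_comm]
      rw [this, AddCircle.toCircle_nsmul]
      simp
    have hsum : ∀ (s : Circ) (M : ℕ),
        ‖∑ m ∈ Finset.range M, (fourier n (s + m • a) : ℂ)‖ ≤ 2 / ‖z - 1‖ := by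
      intro s M
      simp_rw [hterm]
      rw [← Finset.mul_sum, geom_sum_eq hz, norm_mul, norm_div]
      have h1 : ‖(fourier n s : ℂ)‖ = 1 := by rw [fourier_apply]; exact Circle.norm_coe _
      rw [h1, one_mul]
      gcongr
      calc ‖z ^ M - 1‖ ≤ ‖z ^ M‖ + ‖(1 : ℂ)‖ := norm_sub_le _ _
        _ = 2 := by rw [norm_pow, hnorm]; norm_num
    obtain ⟨N, hN⟩ := exists_nat_gt ((2 / ‖z - 1‖) / ε)
    refine ⟨N + 1, fun M hM s => ?_⟩
    rw [integral_fourier_eq_zero hn, sub_zero]
    have hM0 : (0 : ℝ) < M := by exact_mod_cast (by omega : 0 < M)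
    unfold avg
    rw [norm_div, Complex.norm_natCast, div_lt_iff₀ hM0]
    refine (hsum s M).trans_lt ?_
    rw [div_lt_iff₀ hε] at hN
    have hNM : (N : ℝ) ≤ M := by exact_mod_cast (by omega : N ≤ M)
    nlinarith

theorem weylU {a : Circ} (ha : addOrderOf a = 0) (h : C(Circ, ℂ)) : Un a h := by
  have hmem : ∀ f ∈ (Submodule.span ℂ (range <| @fourier 1)), Un a f := by
    intro f hf
    induction hf using Submodule.span_induction with
    | mem f hf =>
      obtain ⟨n, rfl⟩ := hf
      exact un_fourier ha n
    | zero =>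
      intro ε hε
      refine ⟨0, fun M _ s => ?_⟩
      simpa [avg] using hε
    | add f g hf hg ihf ihg =>
      intro ε hε
      obtain ⟨N1, h1⟩ := ihf (ε / 2) (by positivity)
      obtain ⟨N2, h2⟩ := ihg (ε / 2) (by positivity)
      refine ⟨max N1 N2, fun M hM s => ?_⟩
      have hi : ∫ x : Circ, (f + g) x = (∫ x : Circ, f x) + ∫ x : Circ, g x := by
        have := integral_add (μ := (volume : Measure Circ)) (f := f) (g := g)
          (f.continuous.integrable_of_hasCompactSupport (HasCompactSupport.of_compactSpace _))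
          (g.continuous.integrable_of_hasCompactSupport (HasCompactSupport.of_compactSpace _))
        simpa using this
      have ha' : avg a s (f + g) M = avg a s f M + avg a s g M := by
        unfold avg
        rw [← add_div, ← Finset.sum_add_distrib]; rfl
      have e : avg a s (⇑(f + g)) M = avg a s f M + avg a s g M := ha'
      rw [e, hi]
      have h3 := h1 M (le_trans (le_max_left _ _) hM) s
      have h4 := h2 M (le_trans (le_max_right _ _) hM) s
      calc ‖avg a s f M + avg a s g M - ((∫ x : Circ, f x) + ∫ x : Circ, g x)‖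
          = ‖(avg a s f M - ∫ x : Circ, f x) + (avg a s g M - ∫ x : Circ, g x)‖ := by
            congr 1; ring
        _ ≤ _ := norm_add_le _ _
        _ < ε := by linarith
    | smul c f hf ihf =>
      intro ε hε
      obtain ⟨N, hN⟩ := ihf (ε / (‖c‖ + 1)) (by positivity)
      refine ⟨N, fun M hM s => ?_⟩
      have hi : ∫ x : Circ, (c • f) x = c * (∫ x : Circ, f x) := by
        simp [integral_const_mul]
      have e : avg a s (⇑(c • f)) M = c * avg a s f M := by
        unfold avg
        simp only [ContinuousMap.coe_smul, Pi.smul_apply, smul_eq_mul]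
        rw [← Finset.mul_sum, mul_div_assoc]
      rw [e, hi, ← mul_sub, norm_mul]
      have h1 := hN M hM s
      rw [lt_div_iff₀ (by positivity)] at h1
      have h2 := norm_nonneg (avg a s f M - ∫ x : Circ, f x)
      nlinarith [norm_nonneg c]
  intro ε hε
  have hcl : h ∈ (Submodule.span ℂ (range <| @fourier 1)).topologicalClosure := by
    rw [span_fourier_closure_eq_top]; trivial
  rw [← SetLike.mem_coe, Submodule.topologicalClosure_coe, Metric.mem_closure_iff] at hcl
  obtain ⟨f, hf, hfd⟩ := hcl (ε / 3) (by positivity)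
  obtain ⟨N, hN⟩ := hmem f hf (ε / 3) (by positivity)
  refine ⟨N, fun M hM s => ?_⟩
  have h1 := hN M hM s
  have h2 : ‖avg a s h M - avg a s f M‖ ≤ ‖h - f‖ := avg_norm_sub_le a s h f M
  have h3 : ‖(∫ x : Circ, f x) - ∫ x : Circ, h x‖ ≤ ‖h - f‖ := by
    rw [← integral_sub (f.continuous.integrable_of_hasCompactSupport (HasCompactSupport.of_compactSpace _))
      (h.continuous.integrable_of_hasCompactSupport (HasCompactSupport.of_compactSpace _))]
    calc ‖∫ x : Circ, (f x - h x)‖ ≤ ‖h - f‖ * (volume : Measure Circ).real univ := by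
          apply norm_integral_le_of_norm_le_const
          filter_upwards with x
          rw [norm_sub_rev]
          exact (h - f).norm_coe_le_norm x
      _ = ‖h - f‖ := by simp [Measure.real]
  have h4 : ‖h - f‖ < ε / 3 := by rw [← dist_eq_norm]; exact hfd
  calc ‖avg a s h M - ∫ x : Circ, h x‖
      = ‖(avg a s h M - avg a s f M) + (avg a s f M - ∫ x : Circ, f x)
        + ((∫ x : Circ, f x) - ∫ x : Circ, h x)‖ := by congr 1; ring
    _ ≤ ‖avg a s h M - avg a s f M‖ + ‖avg a s f M - ∫ x : Circ, f x‖
        + ‖(∫ x : Circ, f x) - ∫ x : Circ, h x‖ := norm_add₃_le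
    _ < ε / 3 + ε / 3 + ε / 3 := by linarith
    _ = ε := by ring

open Classical in
/-- the visits to a closed set of small measure, uniformly in the starting point -/
theorem closed_bound {a : Circ} (ha : addOrderOf a = 0) {K : Set Circ} (hK : IsClosed K) {δ : ℝ}
    (hδ : 0 < δ) (hv : volume K < ENNReal.ofReal δ) :
    ∃ M0 : ℕ, ∀ M : ℕ, M0 ≤ M → ∀ s : Circ,
      (((Finset.range M).filter (fun m => s + m • a ∈ K)).card : ℝ) ≤ δ * M := by
  obtain ⟨U, hNU, hUo, hUv⟩ : ∃ U ⊇ K, IsOpen U ∧ volume U < ENNReal.ofReal δ :=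
    K.exists_isOpen_lt_of_lt _ hv
  obtain ⟨g, hg0, hg1, hg01⟩ := exists_continuous_zero_one_of_isClosed hUo.isClosed_compl hK
    (by rw [disjoint_compl_left_iff_subset]; exact hNU)
  let h : C(Circ, ℂ) := ⟨fun x => (g x : ℂ), by fun_prop⟩
  have hint : (∫ x : Circ, h x).re < δ := by
    have h1 : ∫ x : Circ, h x = ((∫ x : Circ, g x : ℝ) : ℂ) := by
      simp only [h, ContinuousMap.coe_mk]
      exact integral_ofReal
    rw [h1, Complex.ofReal_re]
    have h2 : ∫ x : Circ, g x ≤ ∫ x : Circ, U.indicator (fun _ => (1 : ℝ)) x := by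
      apply integral_mono
      · exact g.continuous.integrable_of_hasCompactSupport (HasCompactSupport.of_compactSpace _)
      · exact (integrable_indicator_iff hUo.measurableSet).2 (integrableOn_const (by simp) )
      · intro x
        by_cases hx : x ∈ U
        · simp only [hx, indicator_of_mem]; exact (hg01 x).2
        · simp only [hx, not_false_eq_true, indicator_of_notMem]
          exact le_of_eq (hg0 hx)
    rw [integral_indicator hUo.measurableSet] at h2
    simp only [integral_const, MeasurableSet.univ, measureReal_restrict_apply, univ_inter, smul_eq_mul, mul_one] at h2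
    refine h2.trans_lt ?_
    rw [Measure.real]
    exact (ENNReal.lt_ofReal_iff_toReal_lt (ne_top_of_lt hUv)).1 hUv
  obtain ⟨N, hN⟩ := weylU ha h (δ - (∫ x : Circ, h x).re) (by linarith)
  refine ⟨N + 1, fun M hM s => ?_⟩
  have h1 := hN M (by omega) s
  have h2 : (avg a s h M).re < δ := by
    have h3 := (Complex.abs_re_le_norm (avg a s h M - ∫ x : Circ, h x)).trans_lt h1
    rw [Complex.sub_re, abs_lt] at h3
    linarith [h3.2]
  have hM0 : (0 : ℝ) < M := by exact_mod_cast (by omega : 0 < M)
  unfold avg at h2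
  have h4 : (∑ m ∈ Finset.range M, h (s + m • a)) / (M : ℂ) =
      (((∑ m ∈ Finset.range M, g (s + m • a)) / M : ℝ) : ℂ) := by
    push_cast; rfl
  rw [h4, Complex.ofReal_re, div_lt_iff₀ hM0] at h2
  refine le_trans ?_ h2.le
  rw [Finset.card_filter]
  push_cast
  gcongr with m _
  split_ifs with hm
  · have := hg1 hm
    simp only [Pi.one_apply] at this
    rw [this]
  · exact (hg01 _).1

end Pool.Agent.TH959.AL
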